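import Pool.Agent.Helper75.PY.Stmts2

/-! # PY row QS2: the second slot of a quaternion algebra, characteristic two -/

set_option autoImplicit false

universe u

namespace Pool.Agent.Helper29.PY

open Pool.Agent.Helper75.PX Pool.Agent.Helper75.PY

theorem st_QS2 : Pool.Agent.Helper75.PY.ST_QS2.{u} := by
  intro K A _ _ _ i j a b x₀ x₁ h2 hx hb' h
  have hi := h.hi
  have hj := h.hj
  have hji := h.hji
  have hb := h.b0
  rw [add_mul, one_mul] at hji
  rw [Algebra.algebraMap_eq_smul_one] at hi hj
  have iP : i * (i * j) = i * j + a • j := by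
    rw [← mul_assoc, hi, add_mul, smul_mul_assoc, one_mul]
  have Pi : (i * j) * i = i * j + a • j + i * j := by
    rw [mul_assoc, hji, mul_add, iP]
  have Pj : (i * j) * j = b • i := by
    rw [mul_assoc, hj, mul_smul_comm, mul_one]
  have jP : j * (i * j) = b • i + b • (1 : A) := by
    rw [← mul_assoc, hji, add_mul, Pj, hj]
  have PP : (i * j) * (i * j) = b • (i + a • (1 : A)) + b • i := by
    rw [mul_assoc, jP, mul_add, mul_smul_comm, mul_smul_comm, mul_one, hi]
  set k : K := x₀ / (x₁ * b) with hk
  have hk1 : k * x₁ * b = x₀ := by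
    rw [hk]
    field_simp
  have ha : a * (x₀ ^ 2 + b * x₁ ^ 2) / (b * x₁ ^ 2) = a + k * k * a * b := by
    rw [hk]
    field_simp
    ring
  refine ⟨?_, ?_, ?_, hb'⟩
  · have e : (i + k • (j * i)) * (i + k • (j * i)) =
        i * i + k • (i * (i * j) + i * j) + k • ((i * j) * i + j * i) +
          (k * k) • ((i * j) * (i * j) + (i * j) * j + j * (i * j) + j * j) := by
      rw [hji]
      simp only [add_mul, mul_add, smul_mul_assoc, mul_smul_comm, smul_add]
      rw [hji]
      module
    rw [e, hi, hj, iP, Pi, PP, Pj, jP, hji, ha, Algebra.algebraMap_eq_smul_one]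
    linear_combination (norm := module) h2 • (k • (i * j) + (k * a) • j + k • (i * j) + (k * k * b) • i +
      (k * k * b) • (1 : A) + (k * k * b) • i)
  · have e : (x₀ • (1 : A) + x₁ • j) * (x₀ • (1 : A) + x₁ • j) =
        (x₀ * x₀) • (1 : A) + (2 * (x₀ * x₁)) • j + (x₁ * x₁) • (j * j) := by
      simp only [add_mul, mul_add, smul_mul_assoc, mul_smul_comm, one_mul, mul_one]
      module
    rw [e, hj, h2, Algebra.algebraMap_eq_smul_one]
    module
  · have e : (x₀ • (1 : A) + x₁ • j) * (i + k • (j * i)) =
        x₀ • i + (x₀ * k) • (j * i) + x₁ • (j * i) + (x₁ * k) • (j * (i * j) + j * j) := by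
      simp only [add_mul, mul_add, smul_mul_assoc, mul_smul_comm, one_mul, mul_one]
      rw [hji]
      simp only [add_mul, mul_add, smul_mul_assoc, mul_smul_comm, one_mul, mul_one]
      module
    have e' : (i + k • (j * i) + 1) * (x₀ • (1 : A) + x₁ • j) =
        x₀ • i + x₁ • (i * j) + (k * x₀) • (j * i) + (k * x₁) • ((i * j) * j + j * j) +
          x₀ • (1 : A) + x₁ • j := by
      rw [hji]
      simp only [add_mul, mul_add, smul_mul_assoc, mul_smul_comm, one_mul, mul_one]
      module
    rw [e, e', jP, Pj, hj, hji]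
    have h3 : (k * x₁ * b) • (1 : A) = x₀ • (1 : A) := by rw [hk1]
    linear_combination (norm := module) h3

end Pool.Agent.Helper29.PY
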